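import Pool.Agent.N303.LS.Stm3
import Pool.Agent.N303.LS.Fin

/-!
# Project LM (helper303), leaf HRR: representation by the heat flow (helper400)
-/

set_option autoImplicit false

namespace Pool.Agent.N400.LM

open MeasureTheory Pool.Agent.N303.LS
open scoped ENNReal FourierTransform RealInnerProductSpace SchwartzMap

variable {d : ℕ}

/-- the heat symbol -/
noncomputable def ht (v : ℝ) (ξ : E d) : ℝ := Real.exp (-(4 * Real.pi ^ 2 * v * ‖ξ‖ ^ 2))

/-- the weight -/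
noncomputable def wt (a v : ℝ) : ℝ := Real.exp (-v) * v ^ (a - 1) / Real.Gamma a

theorem ht_pos (v : ℝ) (ξ : E d) : 0 < ht v ξ := Real.exp_pos _

theorem ht_le {v : ℝ} (hv : 0 ≤ v) (ξ : E d) : ht v ξ ≤ 1 := by
  unfold ht
  rw [Real.exp_le_one_iff]
  have : 0 ≤ 4 * Real.pi ^ 2 * v * ‖ξ‖ ^ 2 := by positivity
  linarith

theorem wt_nonneg {a v : ℝ} (ha : 0 < a) (hv : 0 < v) : 0 ≤ wt a v := by
  unfold wt
  have := Real.Gamma_pos_of_pos ha
  positivity

theorem wt_int {a : ℝ} (ha : 0 < a) : IntegrableOn (wt a) (Set.Ioi 0) := by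
  have h := (Real.GammaIntegral_convergent ha).div_const (Real.Gamma a)
  exact h

theorem wt_ht {a : ℝ} (ha : 0 < a) (ξ : E d) :
    ∫ v in Set.Ioi (0 : ℝ), wt a v * ht v ξ = (1 + 4 * Real.pi ^ 2 * ‖ξ‖ ^ 2) ^ (-a) := by
  have hr : 0 < 1 + 4 * Real.pi ^ 2 * ‖ξ‖ ^ 2 := by positivity
  have hG := Real.Gamma_pos_of_pos ha
  have h1 := Real.integral_rpow_mul_exp_neg_mul_Ioi ha hr
  have h2 : ∀ v : ℝ, wt a v * ht v ξ = (Real.Gamma a)⁻¹ *
      (v ^ (a - 1) * Real.exp (-((1 + 4 * Real.pi ^ 2 * ‖ξ‖ ^ 2) * v))) := by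
    intro v
    unfold wt ht
    have h3 : Real.exp (-((1 + 4 * Real.pi ^ 2 * ‖ξ‖ ^ 2) * v)) =
        Real.exp (-v) * Real.exp (-(4 * Real.pi ^ 2 * v * ‖ξ‖ ^ 2)) := by
      rw [← Real.exp_add]
      congr 1
      ring
    rw [h3]
    field_simp
  simp only [h2]
  rw [integral_const_mul, h1, one_div, Real.inv_rpow hr.le, Real.rpow_neg hr.le]
  field_simp

theorem ht_cont : Continuous fun p : E d × ℝ => ht p.2 p.1 := by
  unfold ht
  fun_prop

/-- the representation for one time -/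
theorem rep {Φ : E d → ℂ} (hΦ : Integrable Φ) {a : ℝ} (ha : 0 < a) :
    ∫ ξ, Φ ξ * (((1 + 4 * Real.pi ^ 2 * ‖ξ‖ ^ 2) ^ (-a) : ℝ) : ℂ) =
      ∫ v in Set.Ioi (0 : ℝ), (wt a v : ℂ) * ∫ ξ, Φ ξ * (ht v ξ : ℂ) := by
  have hI : Integrable (fun p : E d × ℝ => Φ p.1 * ((wt a p.2 : ℂ) * (ht p.2 p.1 : ℂ)))
      (volume.prod (volume.restrict (Set.Ioi (0 : ℝ)))) := by
    have h1 : Integrable (fun p : E d × ℝ => Φ p.1 * (wt a p.2 : ℂ))
        (volume.prod (volume.restrict (Set.Ioi (0 : ℝ)))) :=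
      Integrable.mul_prod hΦ (Integrable.ofReal (wt_int ha))
    refine h1.norm.mono' ?_ ?_
    · have h2 := h1.1.mul ((Complex.continuous_ofReal.comp (ht_cont (d := d))).aestronglyMeasurable
        (μ := volume.prod (volume.restrict (Set.Ioi (0 : ℝ)))))
      refine h2.congr (Filter.Eventually.of_forall fun p => ?_)
      show Φ p.1 * (wt a p.2 : ℂ) * (ht p.2 p.1 : ℂ) = _
      ring
    · have h3 : ∀ᵐ p : E d × ℝ ∂(volume.prod (volume.restrict (Set.Ioi (0 : ℝ)))), 0 < p.2 := by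
        have h4 : (volume : Measure (E d)).prod (volume.restrict (Set.Ioi (0 : ℝ))) =
            (volume.prod volume).restrict (Set.univ ×ˢ Set.Ioi (0 : ℝ)) := by
          rw [← Measure.prod_restrict, Measure.restrict_univ]
        rw [h4, ae_restrict_iff' (MeasurableSet.univ.prod measurableSet_Ioi)]
        exact Filter.Eventually.of_forall fun p hp => hp.2
      filter_upwards [h3] with p hp
      rw [norm_mul, norm_mul, norm_mul, Complex.norm_real (ht p.2 p.1), Real.norm_of_nonneg (ht_pos _ _).le,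
        ← mul_assoc]
      exact mul_le_of_le_one_right (by positivity) (ht_le hp.le _)
  have h5 : ∀ ξ : E d, Φ ξ * (((1 + 4 * Real.pi ^ 2 * ‖ξ‖ ^ 2) ^ (-a) : ℝ) : ℂ) =
      ∫ v in Set.Ioi (0 : ℝ), Φ ξ * ((wt a v : ℂ) * (ht v ξ : ℂ)) := by
    intro ξ
    rw [integral_const_mul, ← wt_ht ha ξ, ← integral_complex_ofReal]
    congr 2
    funext v
    push_cast
    rfl
  rw [integral_congr_ae (Filter.Eventually.of_forall h5), integral_integral_swap hI]
  refine integral_congr_ae (Filter.Eventually.of_forall fun v => ?_)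
  show ∫ ξ, Φ ξ * ((wt a v : ℂ) * (ht v ξ : ℂ)) = (wt a v : ℂ) * ∫ ξ, Φ ξ * (ht v ξ : ℂ)
  rw [← integral_const_mul]
  congr 1
  funext ξ
  ring

/-- continuity in the time of the heat flow -/
theorem cont_v {Φ : E d → ℂ} (hΦ : Integrable Φ) :
    Continuous fun v : ℝ => ∫ ξ, Φ ξ * (ht (max v 0) ξ : ℂ) := by
  refine continuous_of_dominated (bound := fun ξ => ‖Φ ξ‖) ?_ ?_ hΦ.norm ?_
  · intro v
    refine hΦ.1.mul (Continuous.aestronglyMeasurable ?_)
    unfold ht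
    fun_prop
  · intro v
    refine Filter.Eventually.of_forall fun ξ => ?_
    rw [norm_mul, Complex.norm_real, Real.norm_of_nonneg (ht_pos _ _).le]
    exact mul_le_of_le_one_right (norm_nonneg _) (ht_le (le_max_right _ _) _)
  · refine Filter.Eventually.of_forall fun ξ => ?_
    unfold ht
    fun_prop

section

variable {ι : Type} [Fintype ι] (K : 𝓢(E d, ℂ)) (A : ι → Finset (Fin d → ℤ)) (ε : ι → Bool)

theorem rnd_int {F : E d → ℂ} (hF : Integrable F) : Integrable fun ξ => rnd K A ε ξ * F ξ := by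
  have h1 : (fun ξ => rnd K A ε ξ * F ξ) =
      fun ξ => ∑ i, (if ε i then psi K (A i) ξ else - psi K (A i) ξ) * F ξ := by
    funext ξ
    unfold rnd
    rw [Finset.sum_mul]
  rw [h1]
  refine integrable_finsetSum _ fun i _ => ?_
  have h2 := psi_int K (A i) F hF
  by_cases h : ε i = true
  · simp only [h, if_true]
    exact h2
  · simp only [h, if_false, Bool.false_eq_true]
    refine h2.neg.congr (Filter.Eventually.of_forall fun ξ => ?_)
    show -(_ * _) = _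
    ring

theorem sg_eq (k : Fin d ⊕ Bool) (g : 𝓢(E d, ℂ)) (t : ℝ) (h0 : 0 ≤ t) (h2 : t ≤ 2) (x : E d) :
    sg K A k g ε t x = inv (fun ξ => rnd K A ε ξ * (sym k t ξ * 𝓕 (g : E d → ℂ) ξ)) x := by
  have hi := sym_int k t h0 h2 g
  have e1 : ∀ i : ι, (if ε i then pc K (A i) k g t x else - pc K (A i) k g t x) =
      inv (fun ξ => (if ε i then psi K (A i) ξ else - psi K (A i) ξ) *
        (sym k t ξ * 𝓕 (g : E d → ℂ) ξ)) x := by
    intro i
    unfold pc
    by_cases h : ε i = true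
    · simp only [h, if_true]
    · simp only [h, if_false, Bool.false_eq_true]
      rw [← inv_neg]
      congr 1
      funext ξ
      ring
  have hint : ∀ i : ι, Integrable (fun ξ =>
      (if ε i then psi K (A i) ξ else - psi K (A i) ξ) * (sym k t ξ * 𝓕 (g : E d → ℂ) ξ)) := by
    intro i
    have h1 := psi_int K (A i) _ hi
    by_cases h : ε i = true
    · simp only [h, if_true]
      exact h1
    · simp only [h, if_false, Bool.false_eq_true]
      refine h1.neg.congr (Filter.Eventually.of_forall fun ξ => ?_)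
      show -(_ * _) = _
      ring
  unfold sg
  simp only [e1]
  rw [← inv_sum Finset.univ _ (fun i _ => hint i)]
  congr 1
  funext ξ
  unfold rnd
  rw [Finset.sum_mul]

/-- the integrand at the point `x` -/
noncomputable def Ph (k : Fin d ⊕ Bool) (G : 𝓢(E d, ℂ)) (x : E d) (t : ℝ) (ξ : E d) : ℂ :=
  Complex.exp (((2 * Real.pi * ⟪x, ξ⟫ : ℝ) : ℂ) * Complex.I) *
    (rnd K A ε ξ * (sym k t ξ * 𝓕 (G : E d → ℂ) ξ))

theorem Ph_int (k : Fin d ⊕ Bool) (G : 𝓢(E d, ℂ)) (x : E d) {t : ℝ} (h0 : 0 ≤ t) (h2 : t ≤ 2) :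
    Integrable (Ph K A ε k G x t) := by
  have h1 := rnd_int K A ε (sym_int k t h0 h2 G)
  refine h1.norm.mono' ?_ ?_
  · refine AEStronglyMeasurable.mul ?_ h1.1
    refine Continuous.aestronglyMeasurable ?_
    fun_prop
  · refine Filter.Eventually.of_forall fun ξ => ?_
    unfold Ph
    rw [norm_mul, Complex.norm_exp_ofReal_mul_I, one_mul]

theorem sg_mul (k : Fin d ⊕ Bool) (g G : 𝓢(E d, ℂ)) (c : E d → ℂ)
    (hg : ∀ ξ, 𝓕 (g : E d → ℂ) ξ = c ξ * 𝓕 (G : E d → ℂ) ξ) {t : ℝ} (h0 : 0 ≤ t) (h2 : t ≤ 2)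
    (x : E d) : sg K A k g ε t x = ∫ ξ, Ph K A ε k G x t ξ * c ξ := by
  rw [sg_eq K A ε k g t h0 h2 x]
  unfold inv Ph
  congr 1
  funext ξ
  show Complex.exp (((2 * Real.pi * ⟪x, ξ⟫ : ℝ) : ℂ) * Complex.I) *
    (rnd K A ε ξ * (sym k t ξ * 𝓕 (g : E d → ℂ) ξ)) = _
  rw [hg ξ]
  ring

/-- the common form of both parts -/
theorem core (k : Fin d ⊕ Bool) (g G : 𝓢(E d, ℂ)) (h : ℝ → 𝓢(E d, ℂ)) {a : ℝ} (ha : 0 < a)
    (hh : ∀ v : ℝ, 0 < v → ∀ ξ, 𝓕 (h v : E d → ℂ) ξ = (ht v ξ : ℂ) * 𝓕 (G : E d → ℂ) ξ)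
    (hg : ∀ ξ, 𝓕 (g : E d → ℂ) ξ = (((1 + 4 * Real.pi ^ 2 * ‖ξ‖ ^ 2) ^ (-a) : ℝ) : ℂ) *
      𝓕 (G : E d → ℂ) ξ) (x : E d) :
    AEMeasurable (fun v => sp K A k (h v) ε x) (volume.restrict (Set.Ioi (0 : ℝ))) ∧
      sp K A k g ε x ≤ ∫⁻ v in Set.Ioi (0 : ℝ), ENNReal.ofReal (wt a v) * sp K A k (h v) ε x := by
  have hS : ∀ v : ℝ, 0 < v → ∀ t : ℝ, 0 ≤ t → t ≤ 2 →
      sg K A k (h v) ε t x = ∫ ξ, Ph K A ε k G x t ξ * (ht v ξ : ℂ) := fun v hv t h0 h2 =>
    sg_mul K A ε k (h v) G (fun ξ => (ht v ξ : ℂ)) (hh v hv) h0 h2 x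
  constructor
  · have hlsc : LowerSemicontinuous fun v : ℝ => ⨆ t ∈ Set.Icc (0 : ℝ) 2,
        ‖∫ ξ, Ph K A ε k G x t ξ * (ht (max v 0) ξ : ℂ)‖ₑ := by
      refine lowerSemicontinuous_biSup fun t ht' => ?_
      exact ((cont_v (Ph_int K A ε k G x ht'.1 ht'.2)).enorm).lowerSemicontinuous
    refine ⟨_, hlsc.measurable, ?_⟩
    rw [Filter.EventuallyEq, ae_restrict_iff' measurableSet_Ioi]
    refine Filter.Eventually.of_forall fun v hv => ?_
    have hv' : (0 : ℝ) < v := hv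
    unfold sp
    refine iSup_congr fun t => iSup_congr fun ht' => ?_
    rw [hS v hv' t ht'.1 ht'.2, max_eq_left hv'.le]
  · unfold sp
    refine iSup_le fun t => iSup_le fun ht' => ?_
    rw [sg_mul K A ε k g G _ hg ht'.1 ht'.2 x, rep (Ph_int K A ε k G x ht'.1 ht'.2) ha]
    refine (enorm_integral_le_lintegral_enorm _).trans ?_
    refine setLIntegral_mono' measurableSet_Ioi fun v hv => ?_
    have hv' : (0 : ℝ) < v := hv
    rw [enorm_mul, ← hS v hv' t ht'.1 ht'.2]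
    have h1 : ‖((wt a v : ℝ) : ℂ)‖ₑ = ENNReal.ofReal (wt a v) := by
      rw [← ofReal_norm, Complex.norm_real, Real.norm_of_nonneg (wt_nonneg ha hv')]
    rw [h1]
    refine mul_le_mul' le_rfl ?_
    exact le_iSup₂_of_le t ht' le_rfl

end

theorem fourier_dj (j : Fin d) (g : 𝓢(E d, ℂ)) (ξ : E d) :
    𝓕 (dj j g : E d → ℂ) ξ = ((2 * Real.pi * ξ j : ℝ) : ℂ) * Complex.I * 𝓕 (g : E d → ℂ) ξ := by
  have e3 : 𝓕 (dj j g : E d → ℂ) ξ = (𝓕 (dj j g) : 𝓢(E d, ℂ)) ξ := by rw [SchwartzMap.fourier_coe]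
  rw [e3]
  unfold dj
  simp only [SchwartzMap.fourier_lineDerivOp_eq]
  have ht : (fun x : E d => inner ℝ x (EuclideanSpace.single j (1 : ℝ))).HasTemperateGrowth :=
    ((innerSL ℝ).flip (EuclideanSpace.single j (1 : ℝ))).hasTemperateGrowth
  simp only [smul_apply, SchwartzMap.smulLeftCLM_apply_apply ht]
  rw [SchwartzMap.fourier_coe]
  have h3 : inner ℝ ξ (EuclideanSpace.single j (1 : ℝ)) = ξ j := by
    simp [EuclideanSpace.inner_single_right]
  rw [h3, smul_eq_mul, Complex.real_smul]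
  push_cast
  ring

theorem t_hrr : Pool.Agent.N303.LS.S_HRR := by
  intro d _ s hs K _ ι _ A k g G h hh ε x
  constructor
  · intro hg
    have h1 := core K A ε k g G h (a := s / 2) (by positivity) (fun v hv ξ => hh v hv ξ)
      (fun ξ => by
        rw [hg ξ]
        unfold bes
        rw [neg_div]) x
    exact h1
  · intro j hg
    have h1 := core K A ε k g (dj j G) (fun v => dj j (h v)) (a := (1 + s) / 2) (by positivity)
      (fun v hv ξ => by
        rw [fourier_dj, fourier_dj, hh v hv ξ]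
        unfold ht
        ring)
      (fun ξ => by
        rw [hg ξ, fourier_dj]
        unfold bes
        rw [neg_div]
        ring) x
    exact h1

end Pool.Agent.N400.LM
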